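import Pool.Agent.U562.GE.Dyadic

/-!
# The reverse Hölder inequality with an explicit range
-/

set_option autoImplicit false

open MeasureTheory Metric Set Filter Topology
open scoped ENNReal

namespace Pool.Agent.U562.GE

variable {d : ℕ} {a : X d} {l : ℝ}

/-- The closed cube with lower corner `a` and side `l`. -/
def cube (a : X d) (l : ℝ) : Set (X d) := Icc a fun i => a i + l

theorem cube_eq_closedBall (a : X d) {l : ℝ} (hl : 0 ≤ l) :
    cube a l = closedBall (fun i => a i + l / 2) (l / 2) := by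
  rw [closedBall_pi _ (by linarith), cube, ← Set.pi_univ_Icc]
  congr 1
  funext i
  rw [Real.closedBall_eq_Icc]
  congr 1 <;> ring

theorem box_ae (hl : 0 < l) (k : ℕ) (j : Fin d → ℤ) :
    box a l k j =ᵐ[volume] cube (fun i => a i + j i * (l / 2 ^ k)) (l / 2 ^ k) := by
  rw [box_eq hl]
  have h := Measure.univ_pi_Ico_ae_eq_Icc (μ := fun _ : Fin d => (volume : Measure ℝ))
    (f := fun i => a i + j i * (l / 2 ^ k)) (g := fun i => a i + (j i + 1) * (l / 2 ^ k))
  rw [← volume_pi] at h
  refine h.trans (Eventually.of_forall fun x => ?_)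
  unfold cube
  have : (fun i => a i + (j i + 1) * (l / 2 ^ k)) = fun i => a i + j i * (l / 2 ^ k) + l / 2 ^ k := by
    funext i
    ring
  rw [this]

/-- The averages over a set. -/
noncomputable def avg (Q : Set (X d)) (f : X d → ℝ≥0∞) : ℝ≥0∞ := (∫⁻ x in Q, f x) / volume Q

theorem Ek_eq_avg (hl : 0 < l) (k : ℕ) (f : X d → ℝ≥0∞) (x : X d) :
    Ek a l k f x = avg (cube (fun i => a i + idx a l k x i * (l / 2 ^ k)) (l / 2 ^ k)) f := by
  unfold Ek avg
  rw [setLIntegral_congr (box_ae hl k _), measure_congr (box_ae hl k _)]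

theorem vol_cube (a : X d) (l : ℝ) : volume (cube a l) = ENNReal.ofReal l ^ d := by
  unfold cube
  rw [Real.volume_Icc_pi]
  simp

theorem Q0_ae (hl : 0 < l) : Q0 a l =ᵐ[volume] cube a l := by
  have h := box_ae (a := a) hl 0 0
  simpa [Q0] using h

theorem Ek_zero (hl : 0 < l) (f : X d → ℝ≥0∞) {x : X d} (hx : x ∈ Q0 a l) :
    Ek a l 0 f x = avg (cube a l) f := by
  have h0 : idx a l 0 x = 0 := hx
  rw [Ek_eq_avg hl, h0]
  simp

/-- The dyadic maximal function dominates the function almost everywhere. -/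
theorem le_Md (hl : 0 < l) {f : X d → ℝ} (hf : LocallyIntegrable f) (h0 : ∀ x, 0 ≤ f x) :
    ∀ᵐ x, ENNReal.ofReal (f x) ≤ Md a l (fun y => ENNReal.ofReal (f y)) x := by
  filter_upwards [IsUnifLocDoublingMeasure.ae_tendsto_average (μ := (volume : Measure (X d))) hf 1]
    with x hx
  set w : ℕ → X d := fun k i => a i + idx a l k x i * (l / 2 ^ k) + (l / 2 ^ k) / 2 with hw
  set δ : ℕ → ℝ := fun k => (l / 2 ^ k) / 2 with hδ
  have hcube : ∀ k, cube (fun i => a i + idx a l k x i * (l / 2 ^ k)) (l / 2 ^ k)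
      = closedBall (w k) (δ k) := fun k => cube_eq_closedBall _ (by positivity)
  have hδ0 : Tendsto δ atTop (𝓝[>] 0) := by
    rw [tendsto_nhdsWithin_iff]
    constructor
    · have h1 : Tendsto (fun k : ℕ => l / 2 * (1 / 2 : ℝ) ^ k) atTop (𝓝 (l / 2 * 0)) :=
        (tendsto_pow_atTop_nhds_zero_of_lt_one (by norm_num) (by norm_num)).const_mul _
      rw [mul_zero] at h1
      refine h1.congr fun k => ?_
      simp only [hδ, one_div, inv_pow]
      field_simp
    · refine Eventually.of_forall fun k => ?_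
      show 0 < δ k
      simp only [hδ]
      positivity
  have hmem : ∀ᶠ k in atTop, x ∈ closedBall (w k) (1 * δ k) := by
    refine Eventually.of_forall fun k => ?_
    rw [one_mul, ← hcube k]
    have h1 : x ∈ box a l k (idx a l k x) := rfl
    rw [box_eq hl] at h1
    rw [cube, mem_Icc]
    simp only [Set.mem_pi, mem_univ, true_imp_iff, mem_Ico] at h1
    constructor
    · intro i
      exact (h1 i).1
    · intro i
      have := (h1 i).2
      show x i ≤ _
      simp only
      linarith
  have hlim := hx w δ hδ0 hmem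
  have hlim2 : Tendsto (fun k => ENNReal.ofReal (⨍ y in closedBall (w k) (δ k), f y)) atTop
      (𝓝 (ENNReal.ofReal (f x))) := (ENNReal.continuous_ofReal.tendsto _).comp hlim
  refine le_of_tendsto' hlim2 fun k => ?_
  refine le_trans (le_of_eq ?_) (le_iSup _ k)
  rw [Ek_eq_avg hl, hcube k]
  unfold avg
  have hi : IntegrableOn f (closedBall (w k) (δ k)) :=
    hf.integrableOn_isCompact (isCompact_closedBall _ _)
  have hv : 0 < volume.real (closedBall (w k) (δ k)) := by
    rw [← hcube k]
    unfold Measure.real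
    rw [vol_cube]
    have : 0 < l / 2 ^ k := by positivity
    exact ENNReal.toReal_pos (pow_ne_zero _ (ENNReal.ofReal_pos.2 this).ne')
      (ENNReal.pow_ne_top ENNReal.ofReal_ne_top)
  rw [setAverage_eq, smul_eq_mul, ENNReal.ofReal_mul (by positivity),
    ofReal_integral_eq_lintegral_ofReal hi (Eventually.of_forall h0), ENNReal.ofReal_inv_of_pos hv,
    ENNReal.div_eq_inv_mul]
  congr 2
  unfold Measure.real
  rw [ENNReal.ofReal_toReal]
  exact measure_closedBall_lt_top.ne

theorem lintegral_rpow_Ioc {r m : ℝ} (hr : -1 < r) (hm : 0 ≤ m) :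
    ∫⁻ t in Ioc 0 m, ENNReal.ofReal (t ^ r) = ENNReal.ofReal (m ^ (r + 1) / (r + 1)) := by
  have hi : IntegrableOn (fun t : ℝ => t ^ r) (Ioc 0 m) := by
    have := intervalIntegral.intervalIntegrable_rpow' (a := 0) (b := m) hr
    rwa [intervalIntegrable_iff_integrableOn_Ioc_of_le hm] at this
  rw [← ofReal_integral_eq_lintegral_ofReal hi]
  · rw [← intervalIntegral.integral_of_le hm, integral_rpow (Or.inl hr),
      Real.zero_rpow (by linarith), sub_zero]
  · filter_upwards [ae_restrict_mem measurableSet_Ioc] with t ht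
    exact Real.rpow_nonneg ht.1.le r

end Pool.Agent.U562.GE
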