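import Mathlib

/-!
# Dyadic subcubes of a cube and the dyadic maximal function
-/

set_option autoImplicit false

open MeasureTheory Metric Set Filter Topology
open scoped ENNReal

namespace Pool.Agent.U562.GE

/-- `ℝᵈ`. -/
abbrev X (d : ℕ) := Fin d → ℝ

variable {d : ℕ}

section grid

variable (a : X d) (l : ℝ)

/-- The index of the half-open dyadic cube of generation `k` containing `x`. -/
noncomputable def idx (k : ℕ) (x : X d) : Fin d → ℤ := fun i => ⌊(x i - a i) / (l / 2 ^ k)⌋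

/-- The half-open dyadic cube of generation `k` and index `j`. -/
def box (k : ℕ) (j : Fin d → ℤ) : Set (X d) := {y | idx a l k y = j}

variable {a l}

theorem mem_box_idx (k : ℕ) (x : X d) : x ∈ box a l k (idx a l k x) := rfl

theorem box_eq (hl : 0 < l) (k : ℕ) (j : Fin d → ℤ) :
    box a l k j = Set.pi univ fun i => Ico (a i + j i * (l / 2 ^ k)) (a i + (j i + 1) * (l / 2 ^ k)) := by
  have h0 : 0 < l / 2 ^ k := by positivity
  ext y
  simp only [box, Set.mem_setOf_eq, Set.mem_pi, mem_univ, true_imp_iff, mem_Ico, idx, funext_iff]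
  refine forall_congr' fun i => ?_
  rw [Int.floor_eq_iff, le_div_iff₀ h0, div_lt_iff₀ h0]
  constructor
  · rintro ⟨h1, h2⟩
    constructor <;> linarith
  · rintro ⟨h1, h2⟩
    constructor <;> linarith

theorem box_meas (hl : 0 < l) (k : ℕ) (j : Fin d → ℤ) : MeasurableSet (box a l k j) := by
  rw [box_eq hl]
  exact MeasurableSet.univ_pi fun i => measurableSet_Ico

theorem vol_box (hl : 0 < l) (k : ℕ) (j : Fin d → ℤ) :
    volume (box a l k j) = ENNReal.ofReal (l / 2 ^ k) ^ d := by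
  rw [box_eq hl, Real.volume_pi_Ico]
  have : ∀ i : Fin d, ENNReal.ofReal (a i + (j i + 1) * (l / 2 ^ k) - (a i + j i * (l / 2 ^ k)))
      = ENNReal.ofReal (l / 2 ^ k) := by
    intro i
    congr 1
    ring
  rw [Finset.prod_congr rfl fun i _ => this i]
  simp

theorem vol_box_ne (hl : 0 < l) (k : ℕ) (j : Fin d → ℤ) :
    volume (box a l k j) ≠ 0 ∧ volume (box a l k j) ≠ ∞ := by
  rw [vol_box hl]
  have : 0 < l / 2 ^ k := by positivity
  exact ⟨pow_ne_zero _ (ENNReal.ofReal_pos.2 this).ne', ENNReal.pow_ne_top ENNReal.ofReal_ne_top⟩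

theorem idx_succ (hl : 0 < l) (k : ℕ) (x : X d) (i : Fin d) :
    idx a l k x i = idx a l (k + 1) x i / 2 := by
  unfold idx
  have h1 : (x i - a i) / (l / 2 ^ (k + 1)) = 2 * ((x i - a i) / (l / 2 ^ k)) := by
    field_simp
    ring
  rw [h1]
  set z := (x i - a i) / (l / 2 ^ k)
  symm
  rw [Int.ediv_eq_iff_of_pos (by norm_num : (0 : ℤ) < 2)]
  have h2 := Int.floor_le z
  have h3 := Int.lt_floor_add_one z
  constructor
  · rw [Int.le_floor]
    push_cast
    linarith
  · rw [Int.floor_lt]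
    push_cast
    linarith

theorem idx_mono (hl : 0 < l) {k m : ℕ} (h : k ≤ m) {x y : X d}
    (hxy : idx a l m x = idx a l m y) : idx a l k x = idx a l k y := by
  induction h with
  | refl => exact hxy
  | @step m _ ih =>
    apply ih
    funext i
    have hxy' : idx a l (m + 1) x = idx a l (m + 1) y := hxy
    rw [idx_succ hl m x i, idx_succ hl m y i, hxy']

theorem box_nested (hl : 0 < l) {k m : ℕ} (h : k ≤ m) (x : X d) :
    box a l m (idx a l m x) ⊆ box a l k (idx a l k x) := fun _ hy => idx_mono hl h hy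

theorem measurable_idx (k : ℕ) : Measurable (idx a l k : X d → Fin d → ℤ) := by
  unfold idx
  refine measurable_pi_lambda _ fun i => ?_
  exact Int.measurable_floor.comp (by fun_prop)

variable (a l)

/-- The averages over the dyadic cubes of generation `k`. -/
noncomputable def Ek (k : ℕ) (f : X d → ℝ≥0∞) (x : X d) : ℝ≥0∞ :=
  (∫⁻ y in box a l k (idx a l k x), f y) / volume (box a l k (idx a l k x))

variable {a l}

theorem Ek_congr {k : ℕ} {f : X d → ℝ≥0∞} {x y : X d} (h : idx a l k x = idx a l k y) :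
    Ek a l k f x = Ek a l k f y := by
  unfold Ek
  rw [h]

theorem Ek_measurable (k : ℕ) (f : X d → ℝ≥0∞) : Measurable (Ek a l k f) := by
  have : Ek a l k f = (fun j : Fin d → ℤ =>
      (∫⁻ y in box a l k j, f y) / volume (box a l k j)) ∘ idx a l k := rfl
  rw [this]
  exact (measurable_of_countable _).comp (measurable_idx k)

theorem Ek_succ_le (hl : 0 < l) (k : ℕ) (f : X d → ℝ≥0∞) (x : X d) :
    Ek a l (k + 1) f x ≤ 2 ^ d * Ek a l k f x := by
  unfold Ek
  obtain ⟨h1, h2⟩ := vol_box_ne (a := a) hl (k + 1) (idx a l (k + 1) x)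
  obtain ⟨h3, h4⟩ := vol_box_ne (a := a) hl k (idx a l k x)
  have hv : volume (box a l k (idx a l k x)) = 2 ^ d * volume (box a l (k + 1) (idx a l (k + 1) x)) := by
    rw [vol_box hl, vol_box hl, ← mul_pow]
    congr 1
    have : l / 2 ^ k = 2 * (l / 2 ^ (k + 1)) := by
      field_simp
      ring
    rw [this, ENNReal.ofReal_mul (by norm_num)]
    norm_num
  rw [hv] at h3 h4 ⊢
  rw [ENNReal.div_le_iff h1 h2, mul_assoc, ENNReal.div_eq_inv_mul, ENNReal.mul_inv (by simp) (by simp)]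
  have h5 : ∫⁻ y in box a l (k + 1) (idx a l (k + 1) x), f y ≤ ∫⁻ y in box a l k (idx a l k x), f y :=
    lintegral_mono_set (box_nested hl (Nat.le_succ k) x)
  refine h5.trans (le_of_eq ?_)
  set V := volume (box a l (k + 1) (idx a l (k + 1) x))
  set I := ∫⁻ y in box a l k (idx a l k x), f y
  have h6 : (2 : ℝ≥0∞) ^ d ≠ 0 := by simp
  have h7 : (2 : ℝ≥0∞) ^ d ≠ ∞ := by simp
  calc I = (2 ^ d * (2 ^ d)⁻¹) * (V⁻¹ * V) * I := by
        rw [ENNReal.mul_inv_cancel h6 h7, ENNReal.inv_mul_cancel h1 h2, one_mul, one_mul]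
    _ = 2 ^ d * ((2 ^ d)⁻¹ * V⁻¹ * I * V) := by ring

theorem lintegral_Ek (hl : 0 < l) (k : ℕ) (f : X d → ℝ≥0∞) (S : Set (Fin d → ℤ)) :
    ∫⁻ x in idx a l k ⁻¹' S, Ek a l k f x = ∫⁻ x in idx a l k ⁻¹' S, f x := by
  have h1 : idx a l k ⁻¹' S = ⋃ j ∈ S, box a l k j := by
    ext x
    simp [box]
  have hd : S.PairwiseDisjoint fun j => box a l k j := by
    intro i _ j _ hij
    rw [Function.onFun, Set.disjoint_left]
    intro x hx hy
    exact hij (hx.symm.trans hy)
  rw [h1, lintegral_biUnion (Set.to_countable S) (fun j _ => box_meas hl k j) hd,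
    lintegral_biUnion (Set.to_countable S) (fun j _ => box_meas hl k j) hd]
  congr 1
  funext j
  obtain ⟨h3, h4⟩ := vol_box_ne (a := a) hl k (j : Fin d → ℤ)
  have h2 : ∫⁻ x in box a l k (j : Fin d → ℤ), Ek a l k f x
      = ∫⁻ x in box a l k (j : Fin d → ℤ), (∫⁻ y in box a l k (j : Fin d → ℤ), f y)
          / volume (box a l k (j : Fin d → ℤ)) := by
    refine setLIntegral_congr_fun (box_meas hl k (j : Fin d → ℤ)) fun x hx => ?_
    have h5 : idx a l k x = (j : Fin d → ℤ) := hx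
    show Ek a l k f x = _
    unfold Ek
    rw [h5]
  rw [h2, setLIntegral_const, ENNReal.div_mul_cancel h3 h4]

variable (a l)

/-- The dyadic maximal function. -/
noncomputable def Md (f : X d → ℝ≥0∞) (x : X d) : ℝ≥0∞ := ⨆ k, Ek a l k f x

/-- The half-open cube. -/
def Q0 : Set (X d) := box a l 0 0

variable {a l}

theorem Md_measurable (f : X d → ℝ≥0∞) : Measurable (Md a l f) :=
  Measurable.iSup fun k => Ek_measurable k f

theorem lt_Md {f : X d → ℝ≥0∞} {x : X d} {t : ℝ≥0∞} : t < Md a l f x ↔ ∃ k, t < Ek a l k f x :=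
  lt_iSup_iff

/-- The stopping sets. -/
def AA (a : X d) (l : ℝ) (f : X d → ℝ≥0∞) (t : ℝ≥0∞) (k : ℕ) : Set (X d) :=
  {x | x ∈ Q0 a l ∧ t < Ek a l k f x ∧ ∀ j < k, Ek a l j f x ≤ t}

theorem AA_saturated (hl : 0 < l) (f : X d → ℝ≥0∞) (t : ℝ≥0∞) (k : ℕ) :
    AA a l f t k = idx a l k ⁻¹' (idx a l k '' AA a l f t k) := by
  apply Set.Subset.antisymm (Set.subset_preimage_image _ _)
  rintro x ⟨y, ⟨hy1, hy2, hy3⟩, hxy⟩
  refine ⟨?_, ?_, fun j hj => ?_⟩
  · have h1 := idx_mono hl (Nat.zero_le k) hxy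
    show idx a l 0 x = 0
    rw [← h1]
    exact hy1
  · rwa [← Ek_congr hxy]
  · rw [← Ek_congr (idx_mono hl hj.le hxy)]
    exact hy3 j hj

theorem AA_meas (hl : 0 < l) (f : X d → ℝ≥0∞) (t : ℝ≥0∞) (k : ℕ) :
    MeasurableSet (AA a l f t k) := by
  rw [AA_saturated hl]
  exact measurable_idx k (Set.to_countable _).measurableSet

theorem AA_disj (f : X d → ℝ≥0∞) (t : ℝ≥0∞) :
    Pairwise (Function.onFun Disjoint (AA a l f t)) := by
  intro j k hjk
  rw [Function.onFun, Set.disjoint_left]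
  rintro x ⟨-, h1, h2⟩ ⟨-, h3, h4⟩
  rcases lt_or_gt_of_ne hjk with h | h
  · exact absurd (h4 j h) (not_le.2 h1)
  · exact absurd (h2 k h) (not_le.2 h3)

theorem AA_union (f : X d → ℝ≥0∞) (t : ℝ≥0∞) :
    {x | x ∈ Q0 a l ∧ t < Md a l f x} = ⋃ k, AA a l f t k := by
  classical
  ext x
  simp only [Set.mem_setOf_eq, mem_iUnion]
  constructor
  · rintro ⟨h1, h2⟩
    have hex := lt_Md.1 h2
    refine ⟨Nat.find hex, h1, Nat.find_spec hex, fun j hj => ?_⟩
    exact not_lt.1 (Nat.find_min hex hj)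
  · rintro ⟨k, h1, h2, -⟩
    exact ⟨h1, lt_Md.2 ⟨k, h2⟩⟩

theorem weak1 (hl : 0 < l) (f : X d → ℝ≥0∞) (t : ℝ≥0∞) :
    t * volume {x | x ∈ Q0 a l ∧ t < Md a l f x} ≤ ∫⁻ x in {x | x ∈ Q0 a l ∧ t < Md a l f x}, f x := by
  rw [AA_union, measure_iUnion (AA_disj f t) (AA_meas hl f t),
    lintegral_iUnion (AA_meas hl f t) (AA_disj f t), ← ENNReal.tsum_mul_left]
  refine ENNReal.tsum_le_tsum fun k => ?_
  have h1 : ∫⁻ x in AA a l f t k, Ek a l k f x = ∫⁻ x in AA a l f t k, f x := by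
    rw [AA_saturated hl, lintegral_Ek hl]
  rw [← h1, ← setLIntegral_const]
  exact setLIntegral_mono (Ek_measurable k f) fun x hx => hx.2.1.le

theorem weak2 (hl : 0 < l) (f : X d → ℝ≥0∞) (t : ℝ≥0∞) (h0 : ∀ x ∈ Q0 a l, Ek a l 0 f x ≤ t) :
    ∫⁻ x in {x | x ∈ Q0 a l ∧ t < Md a l f x}, f x
      ≤ 2 ^ d * t * volume {x | x ∈ Q0 a l ∧ t < Md a l f x} := by
  rw [AA_union, measure_iUnion (AA_disj f t) (AA_meas hl f t),
    lintegral_iUnion (AA_meas hl f t) (AA_disj f t), ← ENNReal.tsum_mul_left]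
  refine ENNReal.tsum_le_tsum fun k => ?_
  have h1 : ∫⁻ x in AA a l f t k, Ek a l k f x = ∫⁻ x in AA a l f t k, f x := by
    rw [AA_saturated hl, lintegral_Ek hl]
  rw [← h1, ← setLIntegral_const]
  refine setLIntegral_mono measurable_const fun x hx => ?_
  rcases Nat.eq_zero_or_pos k with hk | hk
  · subst hk
    exact absurd (h0 x hx.1) (not_le.2 hx.2.1)
  · obtain ⟨m, rfl⟩ : ∃ m, k = m + 1 := ⟨k - 1, by omega⟩
    refine (Ek_succ_le hl m f x).trans ?_
    gcongr
    exact hx.2.2 m (Nat.lt_succ_self m)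

/-- The weak type inequality with the truncated function. -/
theorem weak3 (hl : 0 < l) {f : X d → ℝ≥0∞} (hf : AEMeasurable f) {s : ℝ≥0∞} (hs : s ≠ ∞) :
    s * volume {x | x ∈ Q0 a l ∧ 2 * s < Md a l f x} ≤ ∫⁻ x in Q0 a l, {x | s < f x}.indicator f x := by
  set g : X d → ℝ≥0∞ := {x | s < f x}.indicator f with hg
  have h1 : ∀ k x, Ek a l k f x ≤ Ek a l k g x + s := by
    intro k x
    unfold Ek
    obtain ⟨h3, h4⟩ := vol_box_ne (a := a) hl k (idx a l k x)
    rw [ENNReal.div_le_iff h3 h4, add_mul, ENNReal.div_mul_cancel h3 h4, ← setLIntegral_const,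
      ← lintegral_add_right _ measurable_const]
    refine lintegral_mono fun y => ?_
    by_cases hy : s < f y
    · rw [hg, indicator_of_mem (show y ∈ {x | s < f x} from hy)]
      exact le_self_add
    · rw [hg, indicator_of_notMem (show y ∉ {x | s < f x} from hy), zero_add]
      exact not_lt.1 hy
  have h2 : {x | x ∈ Q0 a l ∧ 2 * s < Md a l f x} ⊆ {x | x ∈ Q0 a l ∧ s < Md a l g x} := by
    rintro x ⟨hx1, hx2⟩
    refine ⟨hx1, ?_⟩
    obtain ⟨k, hk⟩ := lt_Md.1 hx2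
    refine lt_Md.2 ⟨k, ?_⟩
    have h3 := hk.trans_le (h1 k x)
    rw [two_mul] at h3
    exact (ENNReal.add_lt_add_iff_right hs).1 h3
  calc s * volume {x | x ∈ Q0 a l ∧ 2 * s < Md a l f x}
      ≤ s * volume {x | x ∈ Q0 a l ∧ s < Md a l g x} := by gcongr
    _ ≤ ∫⁻ x in {x | x ∈ Q0 a l ∧ s < Md a l g x}, g x := weak1 hl g s
    _ ≤ ∫⁻ x in Q0 a l, g x := lintegral_mono_set fun x hx => hx.1

end grid

end Pool.Agent.U562.GE
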