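import Pool.Agent.U562.GE.Main

/-!
# The reverse Hölder inequality
-/

set_option autoImplicit false

open MeasureTheory Metric Set Filter Topology
open scoped ENNReal

namespace Pool.Agent.U562.GE

variable {d : ℕ} {a : X d} {l : ℝ} {p K δ : ℝ} {w : X d → ℝ}

theorem absorb {φ b : ℝ≥0∞} {θ : ℝ} (hφ : φ ≠ ∞) (hθ : θ ≤ 1 / 2) (h : φ ≤ b + ENNReal.ofReal θ * φ) :
    φ ≤ 2 * b := by
  rcases eq_or_ne b ∞ with hb | hb
  · rw [hb, ENNReal.mul_top (by norm_num)]
    exact le_top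
  have h1 : φ ≤ b + ENNReal.ofReal (1 / 2) * φ := by
    refine h.trans ?_
    gcongr
  have h2 := ENNReal.toReal_mono
    (ENNReal.add_ne_top.2 ⟨hb, ENNReal.mul_ne_top ENNReal.ofReal_ne_top hφ⟩) h1
  rw [ENNReal.toReal_add hb (ENNReal.mul_ne_top ENNReal.ofReal_ne_top hφ), ENNReal.toReal_mul,
    ENNReal.toReal_ofReal (by norm_num)] at h2
  rw [← ENNReal.toReal_le_toReal hφ (ENNReal.mul_ne_top (by norm_num) hb), ENNReal.toReal_mul]
  have : (2 : ℝ≥0∞).toReal = 2 := by simp
  rw [this]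
  linarith

theorem vol_Q0_ne (hl : 0 < l) : volume (Q0 a l) ≠ 0 ∧ volume (Q0 a l) ≠ ∞ := vol_box_ne hl 0 0

theorem avg_Q0 (hl : 0 < l) (f : X d → ℝ≥0∞) :
    avg (cube a l) f = (∫⁻ x in Q0 a l, f x) / volume (Q0 a l) := by
  unfold avg
  rw [setLIntegral_congr (Q0_ae hl), measure_congr (Q0_ae hl)]

theorem int_le (hp : 1 < p) (hK : 1 ≤ K) (hl : 0 < l) (hw : Measurable w) (hpos : ∀ x, 0 < w x)
    (h : RHc w p K) (hV : LocallyIntegrable fun x => w x ^ p) (hδ : 0 < δ) {A : ℝ} (hA : 0 < A)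
    (hAv : avg (cube a l) (VV w p) = ENNReal.ofReal A)
    (hθ : δ * (2 ^ d * (2 * K) ^ (p + p * δ) / (δ - 1 / p + 1)) ≤ 1 / 2) :
    ∫⁻ x in Q0 a l, VV w (p + p * δ) x
      ≤ 2 * ((∫⁻ x in Q0 a l, VV w p x) * ENNReal.ofReal (A ^ δ)) := by
  obtain ⟨v0, v1⟩ := vol_Q0_ne (a := a) hl
  have hIV : ∫⁻ x in Q0 a l, VV w p x ≠ ∞ := by
    intro hh
    rw [avg_Q0 hl, hh, ENNReal.top_div_of_ne_top v1] at hAv
    exact ENNReal.ofReal_ne_top hAv.symm
  have hVm : Measurable (VV w p) := (hw.pow_const p).ennreal_ofReal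
  have hφ : ∀ N : ℝ, 0 < N → ∫⁻ x in Q0 a l, VV w p x * ENNReal.ofReal (fN a l w p N x ^ δ)
      ≤ 2 * ((∫⁻ x in Q0 a l, VV w p x) * ENNReal.ofReal (A ^ δ)) := by
    intro N hN
    refine absorb ?_ hθ (phi_bound hp hK hl hw hpos h hV hδ hA hN hAv)
    have h1 : ∫⁻ x in Q0 a l, VV w p x * ENNReal.ofReal (fN a l w p N x ^ δ)
        ≤ ∫⁻ x in Q0 a l, VV w p x * ENNReal.ofReal (N ^ δ) := by
      refine lintegral_mono fun x => ?_
      gcongr
      · exact fN_nonneg x
      · exact fN_le hN x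
    rw [lintegral_mul_const _ hVm] at h1
    exact ne_top_of_le_ne_top (ENNReal.mul_ne_top hIV ENNReal.ofReal_ne_top) h1
  have hψ : ∀ n : ℕ, ∫⁻ x in Q0 a l, VV w p x * ENNReal.ofReal ((min (n : ℝ) (w x ^ p)) ^ δ)
      ≤ 2 * ((∫⁻ x in Q0 a l, VV w p x) * ENNReal.ofReal (A ^ δ)) := by
    intro n
    refine le_trans ?_ (hφ (n + 1) (by positivity))
    refine lintegral_mono_ae ?_
    have hMd := le_Md (a := a) hl hV fun x => Real.rpow_nonneg (hpos x).le p
    filter_upwards [ae_restrict_of_ae hMd] with x hx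
    have hfx := le_fN (N := n + 1) (by positivity) (x := x) hx (Real.rpow_nonneg (hpos x).le p)
    have hwx := hpos x
    gcongr
    refine le_trans ?_ hfx
    gcongr
    linarith
  have hlim : Tendsto (fun n : ℕ => ∫⁻ x in Q0 a l, VV w p x
      * ENNReal.ofReal ((min (n : ℝ) (w x ^ p)) ^ δ)) atTop
      (𝓝 (∫⁻ x in Q0 a l, VV w (p + p * δ) x)) := by
    refine lintegral_tendsto_of_tendsto_of_monotone ?_ ?_ ?_
    · intro n
      exact (hVm.mul ((measurable_const.min (hw.pow_const p)).pow_const δ).ennreal_ofReal).aemeasurable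
    · refine Eventually.of_forall fun x => ?_
      intro n m hnm
      have hwx := hpos x
      show VV w p x * _ ≤ VV w p x * _
      gcongr
    · refine Eventually.of_forall fun x => ?_
      have hwx := hpos x
      obtain ⟨N, hN⟩ := exists_nat_ge (w x ^ p)
      refine tendsto_const_nhds.congr' ?_
      filter_upwards [eventually_ge_atTop N] with n hn
      have h1 : min (n : ℝ) (w x ^ p) = w x ^ p := by
        apply min_eq_right
        exact hN.trans (by exact_mod_cast hn)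
      rw [h1]
      unfold VV
      rw [← ENNReal.ofReal_mul (by positivity), ← Real.rpow_mul hwx.le, ← Real.rpow_add hwx]
  exact le_of_tendsto' hlim hψ

theorem avg_le (hp : 1 < p) (hK : 1 ≤ K) (hl : 0 < l) (hw : Measurable w) (hpos : ∀ x, 0 < w x)
    (h : RHc w p K) (hV : LocallyIntegrable fun x => w x ^ p) (hδ : 0 < δ)
    (hθ : δ * (2 ^ d * (2 * K) ^ (p + p * δ) / (δ - 1 / p + 1)) ≤ 1 / 2) :
    avg (cube a l) (VV w (p + p * δ))
      ≤ 2 * ENNReal.ofReal K ^ (p + p * δ) * avg (cube a l) (WW w) ^ (p + p * δ) := by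
  have hp0 : 0 < p := by linarith
  have hK0 : 0 < K := by linarith
  obtain ⟨v0, v1⟩ := vol_Q0_ne (a := a) hl
  have hVm : Measurable (VV w p) := (hw.pow_const p).ennreal_ofReal
  have hfin : ∫⁻ x in Q0 a l, VV w p x ≠ ∞ := by
    rw [setLIntegral_congr (Q0_ae hl)]
    have hc : IsCompact (cube a l) := isCompact_Icc
    have h1 := (hV.integrableOn_isCompact hc).lintegral_lt_top
    exact h1.ne
  have hpos' : 0 < ∫⁻ x in Q0 a l, VV w p x := by
    rw [setLIntegral_pos_iff hVm]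
    have : Function.support (VV w p) = univ := by
      ext x
      simp only [Function.mem_support, mem_univ, iff_true]
      have := hpos x
      unfold VV
      exact (ENNReal.ofReal_pos.2 (by positivity)).ne'
    rw [this, univ_inter]
    exact pos_iff_ne_zero.2 v0
  set I := ∫⁻ x in Q0 a l, VV w p x with hI
  set μ := volume (Q0 a l) with hμ
  have hAtop : I / μ ≠ ∞ := ENNReal.div_ne_top hfin v0
  have hA0 : I / μ ≠ 0 := by
    rw [Ne, ENNReal.div_eq_zero_iff]
    push Not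
    exact ⟨hpos'.ne', v1⟩
  set A := (I / μ).toReal with hA
  have hApos : 0 < A := ENNReal.toReal_pos hA0 hAtop
  have hAv : avg (cube a l) (VV w p) = ENNReal.ofReal A := by
    rw [avg_Q0 hl, ENNReal.ofReal_toReal hAtop]
  have h1 := int_le hp hK hl hw hpos h hV hδ hApos hAv hθ
  have h2 : avg (cube a l) (VV w (p + p * δ)) ≤ 2 * (ENNReal.ofReal A) ^ (1 + δ) := by
    rw [avg_Q0 hl]
    refine (ENNReal.div_le_div_right h1 _).trans (le_of_eq ?_)
    have h3 : (ENNReal.ofReal A) ^ (1 + δ) = (I / μ) * ENNReal.ofReal (A ^ δ) := by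
      rw [ENNReal.rpow_add _ _ (ENNReal.ofReal_pos.2 hApos).ne' ENNReal.ofReal_ne_top,
        ENNReal.rpow_one, ENNReal.ofReal_rpow_of_pos hApos]
      congr 1
      exact ENNReal.ofReal_toReal hAtop
    rw [h3, ENNReal.div_eq_inv_mul, ENNReal.div_eq_inv_mul]
    ring
  refine h2.trans ?_
  rw [mul_assoc]
  gcongr
  have h4 := h a l hl
  rw [hAv] at h4
  calc ENNReal.ofReal A ^ (1 + δ) ≤ (ENNReal.ofReal (K ^ p) * avg (cube a l) (WW w) ^ p) ^ (1 + δ) := by
        gcongr
    _ = ENNReal.ofReal K ^ (p + p * δ) * avg (cube a l) (WW w) ^ (p + p * δ) := by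
        rw [ENNReal.mul_rpow_of_nonneg _ _ (by positivity), ← ENNReal.ofReal_rpow_of_pos hK0,
          ← ENNReal.rpow_mul, ← ENNReal.rpow_mul]
        congr 2 <;> ring

/-- The reverse Hölder constant. -/
noncomputable def rhConst (w : X d → ℝ) (p : ℝ) : ℝ≥0∞ :=
  ⨆ (a : X d) (l : ℝ) (_ : 0 < l),
    avg (cube a l) (fun x => ENNReal.ofReal (w x ^ p)) ^ (1 / p)
      / avg (cube a l) (fun x => ENNReal.ofReal (w x))

theorem vol_cube_ne (hl : 0 < l) : volume (cube a l) ≠ 0 ∧ volume (cube a l) ≠ ∞ := by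
  rw [vol_cube]
  exact ⟨pow_ne_zero _ (ENNReal.ofReal_pos.2 hl).ne', ENNReal.pow_ne_top ENNReal.ofReal_ne_top⟩

theorem avg_WW_ne (hl : 0 < l) (hw : Measurable w) (hpos : ∀ x, 0 < w x)
    (hloc : LocallyIntegrable w) :
    avg (cube a l) (WW w) ≠ 0 ∧ avg (cube a l) (WW w) ≠ ∞ := by
  obtain ⟨v0, v1⟩ := vol_cube_ne (a := a) hl
  have hc : IsCompact (cube a l) := isCompact_Icc
  have h1 : ∫⁻ x in cube a l, WW w x ≠ ∞ := (hloc.integrableOn_isCompact hc).lintegral_lt_top.ne
  have hWm : Measurable (WW w) := hw.ennreal_ofReal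
  have h2 : 0 < ∫⁻ x in cube a l, WW w x := by
    rw [setLIntegral_pos_iff hWm]
    have : Function.support (WW w) = univ := by
      ext x
      simp only [Function.mem_support, mem_univ, iff_true]
      exact (ENNReal.ofReal_pos.2 (hpos x)).ne'
    rw [this, univ_inter]
    exact pos_iff_ne_zero.2 v0
  unfold avg
  refine ⟨?_, ENNReal.div_ne_top h1 v0⟩
  rw [Ne, ENNReal.div_eq_zero_iff]
  push Not
  exact ⟨h2.ne', v1⟩

theorem RHc_of_const (hp : 1 < p) (hw : Measurable w) (hpos : ∀ x, 0 < w x)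
    (hloc : LocallyIntegrable w) (hfin : rhConst w p ≠ ∞) : RHc w p (rhConst w p).toReal := by
  have hp0 : 0 < p := by linarith
  intro a l hl
  obtain ⟨n0, n1⟩ := avg_WW_ne (a := a) hl hw hpos hloc
  have h1 : avg (cube a l) (VV w p) ^ (1 / p) / avg (cube a l) (WW w) ≤ rhConst w p :=
    le_iSup_of_le a (le_iSup_of_le l (le_iSup_of_le hl le_rfl))
  rw [ENNReal.div_le_iff n0 n1] at h1
  have h2 := ENNReal.rpow_le_rpow h1 hp0.le
  rw [← ENNReal.rpow_mul, one_div, inv_mul_cancel₀ hp0.ne', ENNReal.rpow_one,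
    ENNReal.mul_rpow_of_nonneg _ _ hp0.le] at h2
  refine h2.trans (le_of_eq ?_)
  congr 1
  rw [← ENNReal.ofReal_rpow_of_nonneg ENNReal.toReal_nonneg hp0.le, ENNReal.ofReal_toReal hfin]

theorem one_le_const (hp : 1 < p) (hw : Measurable w) (hpos : ∀ x, 0 < w x)
    (hloc : LocallyIntegrable w) : 1 ≤ rhConst w p := by
  have hp0 : 0 < p := by linarith
  obtain ⟨n0, n1⟩ := avg_WW_ne (a := (0 : X d)) (l := 1) one_pos hw hpos hloc
  have h1 : avg (cube (0 : X d) 1) (VV w p) ^ (1 / p) / avg (cube 0 1) (WW w) ≤ rhConst w p :=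
    le_iSup_of_le 0 (le_iSup_of_le 1 (le_iSup_of_le one_pos le_rfl))
  refine le_trans ?_ h1
  rw [ENNReal.le_div_iff_mul_le (Or.inl n0) (Or.inl n1), one_mul]
  have hv : volume (cube (0 : X d) 1) = 1 := by
    rw [vol_cube]
    simp
  unfold avg
  rw [hv, div_one, div_one]
  have hpq : p.HolderConjugate (p / (p - 1)) := Real.HolderConjugate.conjExponent hp
  have h2 := ENNReal.lintegral_mul_le_Lp_mul_Lq (volume.restrict (cube (0 : X d) 1)) hpq
    (f := WW w) (g := fun _ => 1) hw.ennreal_ofReal.aemeasurable aemeasurable_const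
  simp only [ENNReal.one_rpow, lintegral_const, Measure.restrict_apply_univ, hv, mul_one] at h2
  have e1 : (WW w * fun _ : X d => (1 : ℝ≥0∞)) = WW w := by
    funext x
    simp
  rw [e1] at h2
  refine h2.trans (le_of_eq ?_)
  congr 1
  refine lintegral_congr fun x => ?_
  unfold WW VV
  rw [ENNReal.ofReal_rpow_of_nonneg (hpos x).le hp0.le]

/-- The explicit constant. -/
theorem theta_le (hp : 1 < p) (hK : 1 ≤ K) {ε : ℝ} (hε : 0 < ε)
    (hle : ε ≤ (p - 1) / 2 ^ ((d : ℝ) + 2 * p + 2) * K ^ (-p)) :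
    (ε / p) * (2 ^ d * (2 * K) ^ (p + p * (ε / p)) / (ε / p - 1 / p + 1)) ≤ 1 / 2 := by
  have hp0 : 0 < p := by linarith
  have hp1 : 0 < p - 1 := by linarith
  have hK0 : 0 < K := by linarith
  have hKp : 0 < K ^ p := by positivity
  have hKp1 : 1 ≤ K ^ p := Real.one_le_rpow hK hp0.le
  rw [Real.rpow_neg hK0.le] at hle
  set c := (p - 1) / 2 ^ ((d : ℝ) + 2 * p + 2) with hc
  have hc0 : 0 < c := by positivity
  have h1 : ε * K ^ p ≤ c := by
    calc ε * K ^ p ≤ c * (K ^ p)⁻¹ * K ^ p := by gcongr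
      _ = c := by field_simp
  have hcp : c ≤ p / 2 := by
    rw [hc, div_le_iff₀ (by positivity)]
    have : (2 : ℝ) ^ (1 : ℝ) ≤ 2 ^ ((d : ℝ) + 2 * p + 2) := by
      apply Real.rpow_le_rpow_of_exponent_le (by norm_num)
      have : (0 : ℝ) ≤ d := Nat.cast_nonneg d
      linarith
    rw [Real.rpow_one] at this
    nlinarith
  have hcp1 : c ≤ 1 / 2 := by
    rw [hc, div_le_iff₀ (by positivity)]
    have h2 : (2 : ℝ) ^ (p + 1) ≤ 2 ^ ((d : ℝ) + 2 * p + 2) := by
      apply Real.rpow_le_rpow_of_exponent_le (by norm_num)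
      have : (0 : ℝ) ≤ d := Nat.cast_nonneg d
      linarith
    have h3 : p - 1 ≤ 2 ^ p := by
      have h4 := Real.add_one_le_exp (p * Real.log 2)
      have h5 : Real.exp (p * Real.log 2) = 2 ^ p := by
        rw [Real.rpow_def_of_pos (by norm_num), mul_comm]
      have h6 : (1 : ℝ) / 2 ≤ Real.log 2 := by
        have := Real.log_two_gt_d9
        linarith
      rcases le_total p 2 with h7 | h7
      · have : (1 : ℝ) ≤ 2 ^ p := Real.one_le_rpow (by norm_num) hp0.le
        linarith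
      · -- `2 ^ p ≥ p - 1`
        have h8 : (2 : ℝ) ^ p = 2 ^ (p / 2) * 2 ^ (p / 2) := by
          rw [← Real.rpow_add (by norm_num)]
          congr 1
          ring
        have h9 : 1 + p / 2 * (1 / 2) ≤ 2 ^ (p / 2) := by
          have h10 := Real.add_one_le_exp (p / 2 * Real.log 2)
          have h11 : Real.exp (p / 2 * Real.log 2) = 2 ^ (p / 2) := by
            rw [Real.rpow_def_of_pos (by norm_num), mul_comm]
          rw [h11] at h10
          nlinarith
        rw [h8]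
        nlinarith [sq_nonneg (p - 4)]
    have h12 : (2 : ℝ) ^ (p + 1) = 2 ^ p * 2 := by
      rw [Real.rpow_add (by norm_num), Real.rpow_one]
    linarith
  have e1 : p * (ε / p) = ε := by field_simp
  rw [e1]
  have hε1 : ε ≤ p := by
    have : ε ≤ ε * K ^ p := by nlinarith
    linarith
  have h2K : (2 * K) ^ (p + ε) ≤ 2 ^ (2 * p) * (K ^ p * 2) := by
    rw [Real.mul_rpow (by norm_num) hK0.le]
    have h3 : (2 : ℝ) ^ (p + ε) ≤ 2 ^ (2 * p) :=
      Real.rpow_le_rpow_of_exponent_le (by norm_num) (by linarith)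
    have h4 : K ^ (p + ε) ≤ K ^ p * 2 := by
      rw [Real.rpow_add hK0]
      gcongr
      -- `K ^ ε = exp (ε log K)` and `ε log K ≤ ε K ^ p ≤ 1/2`
      have h5 : Real.log K ≤ K ^ p := by
        have h6 : Real.log K ≤ K - 1 := Real.log_le_sub_one_of_pos hK0
        have h7 : K ^ (1 : ℝ) ≤ K ^ p := Real.rpow_le_rpow_of_exponent_le hK hp.le
        rw [Real.rpow_one] at h7
        linarith
      have h8 : K ^ ε = Real.exp (Real.log K * ε) := by
        rw [Real.rpow_def_of_pos hK0]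
      rw [h8]
      have h9 : Real.log K * ε ≤ 1 / 2 := by
        have : Real.log K * ε ≤ K ^ p * ε := by gcongr
        linarith
      have h10 : Real.exp (Real.log K * ε) ≤ Real.exp (1 / 2) := Real.exp_le_exp.2 h9
      have h11 : Real.exp (1 / 2 : ℝ) ≤ 2 := by
        have h12 := Real.exp_one_lt_d9
        have h13 : Real.exp (1 / 2 : ℝ) ^ 2 = Real.exp 1 := by
          rw [← Real.exp_nat_mul]
          norm_num
        have h14 := Real.exp_pos (1 / 2 : ℝ)
        nlinarith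
      exact h10.trans h11
    exact mul_le_mul h3 h4 (by positivity) (by positivity)
  have hden : (p - 1) / p ≤ ε / p - 1 / p + 1 := by
    have : (p - 1) / p = 1 - 1 / p := by field_simp
    rw [this]
    have : 0 < ε / p := by positivity
    linarith
  have hden0 : 0 < (p - 1) / p := by positivity
  calc ε / p * (2 ^ d * (2 * K) ^ (p + ε) / (ε / p - 1 / p + 1))
      ≤ ε / p * (2 ^ d * (2 ^ (2 * p) * (K ^ p * 2)) / ((p - 1) / p)) := by
        gcongr
    _ = (ε * K ^ p) * (2 ^ d * 2 ^ (2 * p) * 2) / (p - 1) := by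
        field_simp
    _ ≤ c * (2 ^ d * 2 ^ (2 * p) * 2) / (p - 1) := by gcongr
    _ = 1 / 2 := by
        have h3 : (2 : ℝ) ^ ((d : ℝ) + 2 * p + 2) = 2 ^ d * 2 ^ (2 * p) * 4 := by
          rw [Real.rpow_add (by norm_num), Real.rpow_add (by norm_num), Real.rpow_natCast]
          norm_num
        rw [hc, h3]
        field_simp
        norm_num

end Pool.Agent.U562.GE
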