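import Pool.Agent.U562.GE.Fin

/-!
# Locally integrable weights
-/

set_option autoImplicit false

open MeasureTheory Metric Set Filter Topology
open scoped ENNReal

namespace Pool.Agent.U562.GE

variable {d : ℕ} {p : ℝ} {w : X d → ℝ}

theorem avg_congr {f g : X d → ℝ≥0∞} (h : f =ᵐ[volume] g) (Q : Set (X d)) : avg Q f = avg Q g := by
  unfold avg
  rw [lintegral_congr_ae (ae_restrict_of_ae h)]

theorem rhConst_congr {w' : X d → ℝ} (h : w' =ᵐ[volume] w) : rhConst w' p = rhConst w p := by
  have h1 : (fun x => ENNReal.ofReal (w' x ^ p)) =ᵐ[volume] fun x => ENNReal.ofReal (w x ^ p) := by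
    filter_upwards [h] with x hx
    rw [hx]
  have h2 : (fun x => ENNReal.ofReal (w' x)) =ᵐ[volume] fun x => ENNReal.ofReal (w x) := by
    filter_upwards [h] with x hx
    rw [hx]
  unfold rhConst
  simp only [avg_congr h1, avg_congr h2]

theorem exists_measurable (hpos : ∀ x, 0 < w x) (hloc : LocallyIntegrable w) :
    ∃ w' : X d → ℝ, Measurable w' ∧ (∀ x, 0 < w' x) ∧ w' =ᵐ[volume] w := by
  have hm := hloc.aestronglyMeasurable
  set g := hm.mk w with hg
  have hgm : Measurable g := hm.stronglyMeasurable_mk.measurable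
  refine ⟨fun x => if 0 < g x then g x else 1, ?_, fun x => ?_, ?_⟩
  · exact Measurable.ite (measurableSet_lt measurable_const hgm) hgm measurable_const
  · dsimp only
    split_ifs with h
    · exact h
    · exact one_pos
  · filter_upwards [hm.ae_eq_mk] with x hx
    have h1 : g x = w x := hx.symm
    rw [h1, if_pos (hpos x)]

theorem loc_pow (hp : 1 < p) (hw : Measurable w) (hpos : ∀ x, 0 < w x)
    (hloc : LocallyIntegrable w) (hfin : rhConst w p ≠ ∞) :
    LocallyIntegrable fun x => w x ^ p := by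
  intro x
  refine ⟨cube (fun i => x i - 1) 2, ?_, ?_⟩
  · have h1 : cube (fun i => x i - 1) 2 = closedBall x 1 := by
      rw [cube_eq_closedBall _ (by norm_num)]
      congr 1
      · funext i
        ring
      · norm_num
    rw [h1]
    exact closedBall_mem_nhds x one_pos
  · have h2 := RHc_of_const hp hw hpos hloc hfin (fun i => x i - 1) 2 (by norm_num)
    obtain ⟨n0, n1⟩ := avg_WW_ne (a := fun i => x i - 1) (l := 2) (by norm_num) hw hpos hloc
    obtain ⟨v0, v1⟩ := vol_cube_ne (a := fun i => x i - 1) (l := 2) (by norm_num)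
    have h3 : avg (cube (fun i => x i - 1) 2) (VV w p) ≠ ∞ :=
      ne_top_of_le_ne_top (ENNReal.mul_ne_top ENNReal.ofReal_ne_top
        (ENNReal.rpow_ne_top_of_nonneg (by linarith) n1)) h2
    have h4 : ∫⁻ y in cube (fun i => x i - 1) 2, VV w p y ≠ ∞ := by
      intro hh
      unfold avg at h3
      rw [hh, ENNReal.top_div_of_ne_top v1] at h3
      exact h3 rfl
    refine ⟨(hw.pow_const p).aestronglyMeasurable, ?_⟩
    rw [hasFiniteIntegral_iff_ofReal (Eventually.of_forall fun y => Real.rpow_nonneg (hpos y).le p)]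
    exact lt_top_iff_ne_top.2 h4

theorem main (hp : 1 < p) (hpos : ∀ x, 0 < w x) (hloc : LocallyIntegrable w)
    (hfin : rhConst w p ≠ ∞) (a : X d) {l : ℝ} (hl : 0 < l) {ε : ℝ} (hε : 0 < ε)
    (hle : ε ≤ (p - 1) / 2 ^ ((d : ℝ) + 2 * p + 2) * (rhConst w p).toReal ^ (-p)) :
    avg (cube a l) (fun x => ENNReal.ofReal (w x ^ (p + ε)))
      ≤ 2 * rhConst w p ^ (p + ε) * avg (cube a l) (fun x => ENNReal.ofReal (w x)) ^ (p + ε) := by
  have hp0 : 0 < p := by linarith
  obtain ⟨w', hw, hpos', hae⟩ := exists_measurable hpos hloc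
  have hcon := rhConst_congr (p := p) hae
  have hloc' : LocallyIntegrable w' := by
    intro x
    obtain ⟨s, hs, hi⟩ := hloc x
    exact ⟨s, hs, hi.congr (ae_restrict_of_ae (hae.symm))⟩
  have hfin' : rhConst w' p ≠ ∞ := by rwa [hcon]
  have hK : 1 ≤ (rhConst w' p).toReal := by
    have := one_le_const hp hw hpos' hloc'
    rw [← ENNReal.toReal_one]
    exact ENNReal.toReal_mono hfin' this
  have hθ := theta_le (d := d) hp hK hε (by rwa [hcon])
  have h1 := avg_le (a := a) hp hK hl hw hpos' (RHc_of_const hp hw hpos' hloc' hfin')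
    (loc_pow hp hw hpos' hloc' hfin') (by positivity : 0 < ε / p) hθ
  have e1 : p * (ε / p) = ε := by field_simp
  rw [e1, ENNReal.ofReal_toReal hfin', hcon] at h1
  have e2 : (fun x => ENNReal.ofReal (w x ^ (p + ε))) =ᵐ[volume] VV w' (p + ε) := by
    filter_upwards [hae] with x hx
    unfold VV
    rw [hx]
  have e3 : (fun x => ENNReal.ofReal (w x)) =ᵐ[volume] WW w' := by
    filter_upwards [hae] with x hx
    unfold WW
    rw [hx]
  rw [avg_congr e2, avg_congr e3]
  exact h1

end Pool.Agent.U562.GE
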