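import Pool.Agent.U562.GE.Core

/-!
# The main estimate for measurable weights
-/

set_option autoImplicit false

open MeasureTheory Metric Set Filter Topology
open scoped ENNReal

namespace Pool.Agent.U562.GE

variable {d : ℕ} {a : X d} {l : ℝ} {p K δ : ℝ} {w : X d → ℝ}

/-- The weight as an extended nonnegative function. -/
noncomputable def WW (w : X d → ℝ) (x : X d) : ℝ≥0∞ := ENNReal.ofReal (w x)

/-- The power of the weight. -/
noncomputable def VV (w : X d → ℝ) (p : ℝ) (x : X d) : ℝ≥0∞ := ENNReal.ofReal (w x ^ p)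

/-- The reverse Hölder condition with constant `K`. -/
def RHc (w : X d → ℝ) (p K : ℝ) : Prop := ∀ (a : X d) (l : ℝ), 0 < l →
  avg (cube a l) (VV w p) ≤ ENNReal.ofReal (K ^ p) * avg (cube a l) (WW w) ^ p

theorem Md_le (hp : 1 < p) (hl : 0 < l) (h : RHc w p K) (x : X d) :
    Md a l (VV w p) x ≤ ENNReal.ofReal (K ^ p) * Md a l (WW w) x ^ p := by
  refine iSup_le fun k => ?_
  rw [Ek_eq_avg hl]
  refine (h _ _ (by positivity)).trans ?_
  rw [← Ek_eq_avg hl]
  gcongr
  exact le_iSup (fun k => Ek a l k (WW w) x) k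

theorem superlevel (hp : 1 < p) (hK : 0 < K) (hl : 0 < l) (hw : Measurable w) (h : RHc w p K)
    {t : ℝ} (ht : 0 < t) :
    volume {x | x ∈ Q0 a l ∧ ENNReal.ofReal t < Md a l (VV w p) x}
      ≤ ENNReal.ofReal (2 * K * t ^ (-(1 / p)))
        * ∫⁻ x in Q0 a l, {x | t < (2 * K * w x) ^ p ∧ 0 < w x}.indicator (WW w) x := by
  have hp0 : 0 < p := by linarith
  set s : ℝ := t ^ (1 / p) / (2 * K) with hs
  have hs0 : 0 < s := by positivity
  have hW : AEMeasurable (WW w) := hw.ennreal_ofReal.aemeasurable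
  have h1 := weak3 (a := a) hl hW (s := ENNReal.ofReal s) ENNReal.ofReal_ne_top
  have h2 : {x | x ∈ Q0 a l ∧ ENNReal.ofReal t < Md a l (VV w p) x}
      ⊆ {x | x ∈ Q0 a l ∧ 2 * ENNReal.ofReal s < Md a l (WW w) x} := by
    rintro x ⟨hx1, hx2⟩
    refine ⟨hx1, ?_⟩
    by_contra hcon
    rw [not_lt] at hcon
    have h3 := hx2.trans_le (Md_le hp hl h x)
    have h4 : ENNReal.ofReal (K ^ p) * Md a l (WW w) x ^ p
        ≤ ENNReal.ofReal (K ^ p) * (2 * ENNReal.ofReal s) ^ p := by
      gcongr
    have h5 : 2 * ENNReal.ofReal s = ENNReal.ofReal (t ^ (1 / p) / K) := by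
      have : (2 : ℝ≥0∞) = ENNReal.ofReal 2 := by simp
      rw [this, ← ENNReal.ofReal_mul (by norm_num)]
      congr 1
      rw [hs]
      field_simp
    rw [h5, ENNReal.ofReal_rpow_of_nonneg (by positivity) hp0.le,
      ← ENNReal.ofReal_mul (by positivity), Real.div_rpow (by positivity) hK.le,
      ← Real.rpow_mul ht.le, one_div, inv_mul_cancel₀ hp0.ne', Real.rpow_one,
      mul_div_cancel₀ _ (by positivity)] at h4
    exact absurd (h3.trans_le h4) (lt_irrefl _)
  have h6 : ∫⁻ x in Q0 a l, {x | ENNReal.ofReal s < WW w x}.indicator (WW w) x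
      ≤ ∫⁻ x in Q0 a l, {x | t < (2 * K * w x) ^ p ∧ 0 < w x}.indicator (WW w) x := by
    refine lintegral_mono fun x => ?_
    refine Set.indicator_le_indicator_of_subset ?_ (fun _ => zero_le) x
    intro y hy
    have hy1 : ENNReal.ofReal s < ENNReal.ofReal (w y) := hy
    have hy2 : s < w y := (ENNReal.ofReal_lt_ofReal_iff_of_nonneg hs0.le).1 hy1
    refine ⟨?_, hs0.trans hy2⟩
    have hy3 : t ^ (1 / p) < 2 * K * w y := by
      rw [hs, div_lt_iff₀ (by positivity)] at hy2
      linarith
    have hy4 := Real.rpow_lt_rpow (by positivity) hy3 hp0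
    rwa [← Real.rpow_mul ht.le, one_div, inv_mul_cancel₀ hp0.ne', Real.rpow_one] at hy4
  have h7 : ENNReal.ofReal (2 * K * t ^ (-(1 / p))) * ENNReal.ofReal s = 1 := by
    rw [← ENNReal.ofReal_mul (by positivity), hs, Real.rpow_neg ht.le]
    have : 0 < t ^ (1 / p) := by positivity
    rw [← ENNReal.ofReal_one]
    congr 1
    field_simp
  calc volume {x | x ∈ Q0 a l ∧ ENNReal.ofReal t < Md a l (VV w p) x}
      ≤ volume {x | x ∈ Q0 a l ∧ 2 * ENNReal.ofReal s < Md a l (WW w) x} := measure_mono h2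
    _ = ENNReal.ofReal (2 * K * t ^ (-(1 / p))) * (ENNReal.ofReal s
        * volume {x | x ∈ Q0 a l ∧ 2 * ENNReal.ofReal s < Md a l (WW w) x}) := by
        rw [← mul_assoc, h7, one_mul]
    _ ≤ _ := by
        gcongr
        exact h1.trans h6

/-- The truncated maximal function. -/
noncomputable def fN (a : X d) (l : ℝ) (w : X d → ℝ) (p : ℝ) (N : ℝ) (x : X d) : ℝ :=
  (min (Md a l (VV w p) x) (ENNReal.ofReal N)).toReal

theorem fN_lt {N t : ℝ} (ht : 0 < t) (x : X d) :
    t < fN a l w p N x ↔ ENNReal.ofReal t < Md a l (VV w p) x ∧ t < N := by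
  unfold fN
  have hne : min (Md a l (VV w p) x) (ENNReal.ofReal N) ≠ ∞ :=
    ne_top_of_le_ne_top ENNReal.ofReal_ne_top (min_le_right _ _)
  rw [← ENNReal.ofReal_lt_iff_lt_toReal ht.le hne, lt_min_iff,
    ENNReal.ofReal_lt_ofReal_iff_of_nonneg ht.le]

theorem fN_le {N : ℝ} (hN : 0 < N) (x : X d) : fN a l w p N x ≤ N := by
  unfold fN
  exact ENNReal.toReal_le_of_le_ofReal hN.le (min_le_right _ _)

theorem fN_nonneg {N : ℝ} (x : X d) : 0 ≤ fN a l w p N x := ENNReal.toReal_nonneg

theorem fN_measurable {N : ℝ} : Measurable (fN a l w p N) :=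
  ((Md_measurable _).min measurable_const).ennreal_toReal

theorem le_fN {N : ℝ} (hN : 0 < N) {x : X d} (hx : VV w p x ≤ Md a l (VV w p) x)
    (h0 : 0 ≤ w x ^ p) : min N (w x ^ p) ≤ fN a l w p N x := by
  unfold fN
  have hne : min (Md a l (VV w p) x) (ENNReal.ofReal N) ≠ ∞ :=
    ne_top_of_le_ne_top ENNReal.ofReal_ne_top (min_le_right _ _)
  rw [← ENNReal.ofReal_le_iff_le_toReal hne]
  refine le_min ?_ ?_
  · exact (ENNReal.ofReal_le_ofReal (min_le_right _ _)).trans hx
  · exact ENNReal.ofReal_le_ofReal (min_le_left _ _)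

/-- The pointwise inequality. -/
theorem ptw {N W f : ℝ} (hp : 1 < p) (hK : 1 ≤ K) (hδ : 0 < δ) (hN : 0 < N) (hW : 0 < W)
    (hf : min N (W ^ p) ≤ f) :
    W * (min N ((2 * K * W) ^ p)) ^ (δ - 1 / p + 1) ≤ (2 * K) ^ (p - 1 + p * δ) * (W ^ p * f ^ δ) := by
  have hp0 : 0 < p := by linarith
  set m := min N ((2 * K * W) ^ p) with hm
  have hm0 : 0 < m := by positivity
  have h1 : m ^ (δ - 1 / p + 1) = m ^ (1 - 1 / p) * m ^ δ := by
    rw [← Real.rpow_add hm0]
    congr 1
    ring
  have hp1 : 0 ≤ 1 - 1 / p := by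
    rw [sub_nonneg, div_le_one hp0]
    exact hp.le
  have h2 : m ^ (1 - 1 / p) ≤ (2 * K * W) ^ (p - 1) := by
    have h3 : ((2 * K * W) ^ p) ^ (1 - 1 / p) = (2 * K * W) ^ (p - 1) := by
      rw [← Real.rpow_mul (by positivity)]
      congr 1
      field_simp
    rw [← h3]
    exact Real.rpow_le_rpow hm0.le (min_le_right _ _) hp1
  have h4 : m ≤ (2 * K) ^ p * min N (W ^ p) := by
    have h5 : 1 ≤ (2 * K) ^ p := Real.one_le_rpow (by linarith) hp0.le
    rw [mul_min_of_nonneg _ _ (by positivity)]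
    refine le_min ?_ ?_
    · refine (min_le_left _ _).trans ?_
      nlinarith
    · rw [← Real.mul_rpow (by positivity) hW.le]
      exact min_le_right _ _
  have h6 : m ^ δ ≤ (2 * K) ^ (p * δ) * f ^ δ := by
    rw [Real.rpow_mul (by positivity), ← Real.mul_rpow (by positivity) (le_trans (by positivity) hf)]
    refine Real.rpow_le_rpow hm0.le (h4.trans ?_) hδ.le
    gcongr
  rw [h1]
  have h7 : 0 ≤ f ^ δ := Real.rpow_nonneg (le_trans (by positivity) hf) _
  calc W * (m ^ (1 - 1 / p) * m ^ δ) ≤ W * ((2 * K * W) ^ (p - 1) * ((2 * K) ^ (p * δ) * f ^ δ)) := by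
        gcongr
    _ = (2 * K) ^ (p - 1 + p * δ) * (W ^ p * f ^ δ) := by
        rw [Real.mul_rpow (by positivity) hW.le, Real.rpow_add (by positivity : 0 < 2 * K)]
        have h8 : W ^ p = W * W ^ (p - 1) := by
          nth_rewrite 2 [← Real.rpow_one W]
          rw [← Real.rpow_add hW]
          congr 1
          ring
        rw [h8]
        ring

theorem phi_bound (hp : 1 < p) (hK : 1 ≤ K) (hl : 0 < l) (hw : Measurable w) (hpos : ∀ x, 0 < w x)
    (h : RHc w p K) (hV : LocallyIntegrable fun x => w x ^ p) (hδ : 0 < δ) {A N : ℝ} (hA : 0 < A)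
    (hN : 0 < N) (hAv : avg (cube a l) (VV w p) = ENNReal.ofReal A) :
    ∫⁻ x in Q0 a l, VV w p x * ENNReal.ofReal (fN a l w p N x ^ δ)
      ≤ (∫⁻ x in Q0 a l, VV w p x) * ENNReal.ofReal (A ^ δ)
        + ENNReal.ofReal (δ * (2 ^ d * (2 * K) ^ (p + p * δ) / (δ - 1 / p + 1)))
          * ∫⁻ x in Q0 a l, VV w p x * ENNReal.ofReal (fN a l w p N x ^ δ) := by
  have hp0 : 0 < p := by linarith
  have hK0 : 0 < K := by linarith
  set r := δ - 1 / p with hr
  have hr1 : -1 < r := by
    have : 1 / p < 1 := by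
      rw [div_lt_one hp0]
      exact hp
    rw [hr]
    linarith
  have hr2 : 0 < r + 1 := by linarith
  set IV := ∫⁻ x in Q0 a l, VV w p x with hIV
  have hVm : Measurable (VV w p) := (hw.pow_const p).ennreal_ofReal
  have hQm : MeasurableSet (Q0 a l) := box_meas hl 0 0
  set ν : Measure (X d) := (volume.restrict (Q0 a l)).withDensity (VV w p) with hν
  have hfm : Measurable (fN a l w p N) := fN_measurable
  have hlay := lintegral_rpow_eq_lintegral_meas_lt_mul ν
    (Eventually.of_forall fun x => fN_nonneg (a := a) (l := l) (w := w) (p := p) (N := N) x)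
    hfm.aemeasurable hδ
  have hφ : ∫⁻ x, ENNReal.ofReal (fN a l w p N x ^ δ) ∂ν
      = ∫⁻ x in Q0 a l, VV w p x * ENNReal.ofReal (fN a l w p N x ^ δ) := by
    rw [hν, lintegral_withDensity_eq_lintegral_mul _ hVm (hfm.pow_const δ).ennreal_ofReal]
    rfl
  set m : X d → ℝ := fun x => min N ((2 * K * w x) ^ p) with hm
  have hmm : Measurable m := measurable_const.min ((hw.const_mul (2 * K)).pow_const p)
  set c : ℝ := 2 ^ d * (2 * K) with hc
  have hc0 : 0 < c := by positivity
  set H : ℝ → ℝ≥0∞ := fun t => ∫⁻ x in Q0 a l,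
    (WW w x * ENNReal.ofReal c) * (Ioc 0 (m x)).indicator (fun t => ENNReal.ofReal (t ^ r)) t with hH
  -- the measure of the superlevel sets
  have hνs : ∀ t : ℝ, 0 < t → ν {x | t < fN a l w p N x} * ENNReal.ofReal (t ^ (δ - 1))
      ≤ (Ioc 0 A).indicator (fun t => IV * ENNReal.ofReal (t ^ (δ - 1))) t + H t := by
    intro t ht
    have hset : MeasurableSet {x | t < fN a l w p N x} := measurableSet_lt measurable_const hfm
    have hνe : ν {x | t < fN a l w p N x} = ∫⁻ x in {x | t < fN a l w p N x} ∩ Q0 a l, VV w p x := by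
      rw [hν, withDensity_apply _ hset, Measure.restrict_restrict hset]
    rcases le_or_gt t A with h1 | h1
    · rw [indicator_of_mem (show t ∈ Ioc 0 A from ⟨ht, h1⟩)]
      refine le_add_right ?_
      gcongr
      rw [hνe]
      exact lintegral_mono_set inter_subset_right
    · rw [indicator_of_notMem (fun hh : t ∈ Ioc 0 A => absurd hh.2 (not_le.2 h1)), zero_add]
      rcases le_or_gt N t with h2 | h2
      · have : {x | t < fN a l w p N x} = ∅ := by
          ext x
          simp only [Set.mem_setOf_eq, mem_empty_iff_false, iff_false, not_lt]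
          exact (fN_le hN x).trans h2
        rw [this, measure_empty, zero_mul]
        exact zero_le
      · have hse : {x | t < fN a l w p N x} ∩ Q0 a l
            = {x | x ∈ Q0 a l ∧ ENNReal.ofReal t < Md a l (VV w p) x} := by
          ext x
          simp only [mem_inter_iff, Set.mem_setOf_eq]
          rw [fN_lt ht]
          tauto
        rw [hνe, hse]
        have h3 : ∀ x ∈ Q0 a l, Ek a l 0 (VV w p) x ≤ ENNReal.ofReal t := by
          intro x hx
          rw [Ek_zero hl _ hx, hAv]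
          exact ENNReal.ofReal_le_ofReal h1.le
        have h4 := weak2 hl (VV w p) (ENNReal.ofReal t) h3
        have h5 := superlevel (a := a) hp hK0 hl hw h ht
        have h6 : ∫⁻ x in Q0 a l, {x | t < (2 * K * w x) ^ p ∧ 0 < w x}.indicator (WW w) x
            * (ENNReal.ofReal c * ENNReal.ofReal (t ^ r)) ≤ H t := by
          refine lintegral_mono fun x => ?_
          by_cases hx : t < (2 * K * w x) ^ p ∧ 0 < w x
          · rw [indicator_of_mem (show x ∈ {x | t < (2 * K * w x) ^ p ∧ 0 < w x} from hx),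
              indicator_of_mem (show t ∈ Ioc 0 (m x) from ⟨ht, le_min h2.le hx.1.le⟩), mul_assoc]
          · rw [indicator_of_notMem (show x ∉ {x | t < (2 * K * w x) ^ p ∧ 0 < w x} from hx),
              zero_mul]
            exact zero_le
        refine le_trans ?_ h6
        rw [lintegral_mul_const' _ _ (ENNReal.mul_ne_top ENNReal.ofReal_ne_top ENNReal.ofReal_ne_top)]
        set J := ∫⁻ x in Q0 a l, {x | t < (2 * K * w x) ^ p ∧ 0 < w x}.indicator (WW w) x
        have h7 : 2 ^ d * ENNReal.ofReal t * ENNReal.ofReal (2 * K * t ^ (-(1 / p)))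
            * ENNReal.ofReal (t ^ (δ - 1)) = ENNReal.ofReal c * ENNReal.ofReal (t ^ r) := by
          have e2 : (2 : ℝ≥0∞) ^ d = ENNReal.ofReal (2 ^ d) := by
            rw [ENNReal.ofReal_pow (by norm_num)]
            simp
          rw [e2, ← ENNReal.ofReal_mul (by positivity), ← ENNReal.ofReal_mul (by positivity),
            ← ENNReal.ofReal_mul (by positivity), ← ENNReal.ofReal_mul (by positivity)]
          congr 1
          have e3 : t ^ r = t * t ^ (-(1 / p)) * t ^ (δ - 1) := by
            nth_rewrite 2 [← Real.rpow_one t]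
            rw [← Real.rpow_add ht, ← Real.rpow_add ht]
            congr 1
            rw [hr]
            ring
          rw [e3, hc]
          ring
        calc (∫⁻ x in {x | x ∈ Q0 a l ∧ ENNReal.ofReal t < Md a l (VV w p) x}, VV w p x)
              * ENNReal.ofReal (t ^ (δ - 1))
            ≤ (2 ^ d * ENNReal.ofReal t * (ENNReal.ofReal (2 * K * t ^ (-(1 / p))) * J))
              * ENNReal.ofReal (t ^ (δ - 1)) := by
              gcongr
              refine h4.trans ?_
              gcongr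
          _ = J * (2 ^ d * ENNReal.ofReal t * ENNReal.ofReal (2 * K * t ^ (-(1 / p)))
            * ENNReal.ofReal (t ^ (δ - 1))) := by ring
          _ = _ := by rw [h7]
  -- integrate in `t`
  have hint : ∫⁻ t in Ioi (0 : ℝ), ν {x | t < fN a l w p N x} * ENNReal.ofReal (t ^ (δ - 1))
      ≤ IV * ENNReal.ofReal (A ^ δ / δ) + ∫⁻ t in Ioi (0 : ℝ), H t := by
    calc ∫⁻ t in Ioi (0 : ℝ), ν {x | t < fN a l w p N x} * ENNReal.ofReal (t ^ (δ - 1))
        ≤ ∫⁻ t in Ioi (0 : ℝ),
          ((Ioc 0 A).indicator (fun t => IV * ENNReal.ofReal (t ^ (δ - 1))) t + H t) :=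
          setLIntegral_mono' measurableSet_Ioi fun t ht => hνs t ht
      _ = (∫⁻ t in Ioi (0 : ℝ), (Ioc 0 A).indicator (fun t => IV * ENNReal.ofReal (t ^ (δ - 1))) t)
          + ∫⁻ t in Ioi (0 : ℝ), H t := by
          rw [lintegral_add_left]
          exact (measurable_const.mul (measurable_id.pow_const _).ennreal_ofReal).indicator
            measurableSet_Ioc
      _ = IV * ENNReal.ofReal (A ^ δ / δ) + ∫⁻ t in Ioi (0 : ℝ), H t := by
          congr 1
          have hI : Ioc (0 : ℝ) A ∩ Ioi 0 = Ioc 0 A := inter_eq_left.2 fun t ht => ht.1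
          have hg : Measurable fun t : ℝ => ENNReal.ofReal (t ^ (δ - 1)) :=
            (measurable_id.pow_const _).ennreal_ofReal
          rw [setLIntegral_indicator measurableSet_Ioc, hI, lintegral_const_mul _ hg,
            lintegral_rpow_Ioc (by linarith) hA.le, sub_add_cancel]
  -- Tonelli
  have hton : ∫⁻ t in Ioi (0 : ℝ), H t
      = ∫⁻ x in Q0 a l, (WW w x * ENNReal.ofReal c) * ENNReal.ofReal (m x ^ (r + 1) / (r + 1)) := by
    rw [hH, lintegral_lintegral_swap]
    · refine lintegral_congr fun x => ?_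
      have hmx : 0 ≤ m x := by
        have := hpos x
        simp only [hm]
        positivity
      have hg : Measurable fun t : ℝ => ENNReal.ofReal (t ^ r) :=
        (measurable_id.pow_const _).ennreal_ofReal
      have hI : Ioc (0 : ℝ) (m x) ∩ Ioi 0 = Ioc 0 (m x) := inter_eq_left.2 fun t ht => ht.1
      rw [lintegral_const_mul _ (hg.indicator measurableSet_Ioc)]
      congr 1
      rw [setLIntegral_indicator measurableSet_Ioc, hI, lintegral_rpow_Ioc hr1 hmx]
    · have hs : MeasurableSet {q : ℝ × X d | 0 < q.1 ∧ q.1 ≤ m q.2} :=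
        (measurableSet_lt measurable_const measurable_fst).inter
          (measurableSet_le measurable_fst (hmm.comp measurable_snd))
      have e : (Function.uncurry fun (t : ℝ) (x : X d) => WW w x * ENNReal.ofReal c
          * (Ioc 0 (m x)).indicator (fun t => ENNReal.ofReal (t ^ r)) t)
          = fun q : ℝ × X d => WW w q.2 * ENNReal.ofReal c
            * {q : ℝ × X d | 0 < q.1 ∧ q.1 ≤ m q.2}.indicator
              (fun q => ENNReal.ofReal (q.1 ^ r)) q := by
        funext ⟨t, x⟩
        rfl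
      rw [e]
      refine Measurable.aemeasurable ?_
      exact (((hw.comp measurable_snd).ennreal_ofReal).mul_const _).mul
        ((measurable_fst.pow_const r).ennreal_ofReal.indicator hs)
  -- the pointwise estimate
  have hpt : ∫⁻ x in Q0 a l, (WW w x * ENNReal.ofReal c) * ENNReal.ofReal (m x ^ (r + 1) / (r + 1))
      ≤ ENNReal.ofReal (2 ^ d * (2 * K) ^ (p + p * δ) / (r + 1))
        * ∫⁻ x in Q0 a l, VV w p x * ENNReal.ofReal (fN a l w p N x ^ δ) := by
    have hg : Measurable fun x => VV w p x * ENNReal.ofReal (fN a l w p N x ^ δ) :=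
      hVm.mul (hfm.pow_const δ).ennreal_ofReal
    rw [← lintegral_const_mul _ hg]
    refine lintegral_mono_ae ?_
    have hMd := le_Md (a := a) hl hV fun x => Real.rpow_nonneg (hpos x).le p
    filter_upwards [ae_restrict_of_ae hMd] with x hx
    have hfx := le_fN (N := N) hN (x := x) hx (Real.rpow_nonneg (hpos x).le p)
    have h1 := ptw hp hK hδ hN (hpos x) hfx
    have hf0 : 0 ≤ fN a l w p N x := fN_nonneg x
    have hwx := hpos x
    unfold WW VV
    rw [← ENNReal.ofReal_mul (hpos x).le, ← ENNReal.ofReal_mul (by positivity),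
      ← ENNReal.ofReal_mul (by positivity), ← ENNReal.ofReal_mul (by positivity)]
    apply ENNReal.ofReal_le_ofReal
    have e1 : w x * c * (m x ^ (r + 1) / (r + 1)) = c / (r + 1) * (w x * m x ^ (r + 1)) := by ring
    have e2 : 2 ^ d * (2 * K) ^ (p + p * δ) / (r + 1) * (w x ^ p * fN a l w p N x ^ δ)
        = c / (r + 1) * ((2 * K) ^ (p - 1 + p * δ) * (w x ^ p * fN a l w p N x ^ δ)) := by
      have : (2 * K) ^ (p + p * δ) = 2 * K * (2 * K) ^ (p - 1 + p * δ) := by
        nth_rewrite 2 [← Real.rpow_one (2 * K)]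
        rw [← Real.rpow_add (by positivity)]
        congr 1
        ring
      rw [this, hc]
      ring
    rw [e1, e2]
    exact mul_le_mul_of_nonneg_left h1 (by positivity)
  rw [← hφ, hlay]
  rw [← hφ, hlay] at hpt
  set Φ := ENNReal.ofReal δ * ∫⁻ t in Ioi (0 : ℝ), ν {x | t < fN a l w p N x}
    * ENNReal.ofReal (t ^ (δ - 1)) with hΦ
  have hδe : ENNReal.ofReal δ * ENNReal.ofReal (A ^ δ / δ) = ENNReal.ofReal (A ^ δ) := by
    rw [← ENNReal.ofReal_mul hδ.le]
    congr 1
    field_simp
  calc Φ ≤ ENNReal.ofReal δ * (IV * ENNReal.ofReal (A ^ δ / δ) + ∫⁻ t in Ioi (0 : ℝ), H t) := by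
        rw [hΦ]
        gcongr
    _ ≤ ENNReal.ofReal δ * (IV * ENNReal.ofReal (A ^ δ / δ)
        + ENNReal.ofReal (2 ^ d * (2 * K) ^ (p + p * δ) / (r + 1)) * Φ) := by
        gcongr
        rw [hton]
        exact hpt
    _ = IV * (ENNReal.ofReal δ * ENNReal.ofReal (A ^ δ / δ))
        + (ENNReal.ofReal δ * ENNReal.ofReal (2 ^ d * (2 * K) ^ (p + p * δ) / (r + 1))) * Φ := by
        ring
    _ = _ := by
        rw [hδe, ← ENNReal.ofReal_mul hδ.le]

end Pool.Agent.U562.GE
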